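import Pool.Agent.W973.SRR.Defs2

/-!
# Coloured not-all-equal formulas
-/

set_option autoImplicit false

namespace Pool.Agent.W65.SRR

open Pool.Agent.W973.SRR Pool.Agent.NPC

/-- The clauses `eqc x` say that the three copies of `x` have the same value. -/
theorem eqc_forces (τ : ℕ → Bool) (x : ℕ)
    (h : ∀ c ∈ eqc x, ¬ ((τ c.1.2 = c.1.1 ↔ τ c.2.1.2 = c.2.1.1) ∧
      (τ c.2.1.2 = c.2.1.1 ↔ τ c.2.2.2 = c.2.2.1))) :
    τ (3 * x + 1) = τ (3 * x) ∧ τ (3 * x + 2) = τ (3 * x) := by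
  have h1 := h ((true, 3 * x), (false, 3 * x + 1), (true, 3 * x + 2)) (by simp [eqc])
  have h2 := h ((true, 3 * x), (false, 3 * x + 1), (false, 3 * x + 2)) (by simp [eqc])
  have h3 := h ((true, 3 * x), (true, 3 * x + 1), (false, 3 * x + 2)) (by simp [eqc])
  clear h
  dsimp only at h1 h2 h3
  revert h1 h2 h3
  generalize τ (3 * x) = a
  generalize τ (3 * x + 1) = b
  generalize τ (3 * x + 2) = c
  cases a <;> cases b <;> cases c <;> simp

theorem col_mem (ψ : CNF) (c : Lit ℕ × Lit ℕ × Lit ℕ) : c ∈ col ψ ↔ ∃ d ∈ ψ,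
    (c = ((d.1.1, 3 * d.1.2), (d.2.1.1, 3 * d.2.1.2 + 1), (d.2.2.1, 3 * d.2.2.2 + 2)) ∨
      c ∈ eqc d.1.2 ∨ c ∈ eqc d.2.1.2 ∨ c ∈ eqc d.2.2.2) := by
  unfold col
  simp only [List.mem_flatMap, List.mem_cons, List.mem_append]

theorem eqc_mod (x : ℕ) (c : Lit ℕ × Lit ℕ × Lit ℕ) (hc : c ∈ eqc x) :
    c.1.2 % 3 = 0 ∧ c.2.1.2 % 3 = 1 ∧ c.2.2.2 % 3 = 2 := by
  simp only [eqc, List.mem_cons, List.not_mem_nil, or_false] at hc
  rcases hc with h | h | h | h <;> subst h <;> refine ⟨?_, ?_, ?_⟩ <;> dsimp only <;> omega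

theorem eqc_nae (τ : ℕ → Bool) (x : ℕ) (c : Lit ℕ × Lit ℕ × Lit ℕ) (hc : c ∈ eqc x) :
    ¬ ((τ (c.1.2 / 3) = c.1.1 ↔ τ (c.2.1.2 / 3) = c.2.1.1) ∧
      (τ (c.2.1.2 / 3) = c.2.1.1 ↔ τ (c.2.2.2 / 3) = c.2.2.1)) := by
  have e0 : 3 * x / 3 = x := by omega
  have e1 : (3 * x + 1) / 3 = x := by omega
  have e2 : (3 * x + 2) / 3 = x := by omega
  simp only [eqc, List.mem_cons, List.not_mem_nil, or_false] at hc
  rcases hc with h | h | h | h <;> subst h <;> dsimp only <;> rw [e0, e1, e2] <;>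
    cases τ x <;> simp

theorem colT (h1 : S_BAS) : S4_COL := by
  intro ψ
  refine ⟨?_, ?_, ?_⟩
  · intro i hi
    obtain ⟨hNO, hR, -⟩ := h1 (col ψ)
    have key := (hR (fun l0 l1 l2 => l0.2 % 3 = 0 ∧ l1.2 % 3 = 1 ∧ l2.2 % 3 = 2)).1 (by
      intro c hc
      obtain ⟨d, -, h | h | h | h⟩ := (col_mem ψ c).1 hc
      · subst h
        refine ⟨?_, ?_, ?_⟩ <;> dsimp only <;> omega
      · exact eqc_mod _ c h
      · exact eqc_mod _ c h
      · exact eqc_mod _ c h)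
    have hk : i / 3 < (col ψ).length := by omega
    obtain ⟨a, b, c⟩ := key (i / 3) hk
    have h3 : i % 3 = 0 ∨ i % 3 = 1 ∨ i % 3 = 2 := by omega
    show (lit (col ψ) i).2 % 3 = i % 3
    rcases h3 with h | h | h
    · have e : 3 * (i / 3) = i := by omega
      rw [e] at a
      rw [h]; exact a
    · have e : 3 * (i / 3) + 1 = i := by omega
      rw [e] at b
      rw [h]; exact b
    · have e : 3 * (i / 3) + 2 = i := by omega
      rw [e] at c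
      rw [h]; exact c
  · rintro ⟨τ, hτ⟩
    refine ⟨fun y => τ (y / 3), ?_⟩
    intro c hc
    obtain ⟨d, hd, h | h | h | h⟩ := (col_mem ψ c).1 hc
    · subst h
      have e0 : 3 * d.1.2 / 3 = d.1.2 := by omega
      have e1 : (3 * d.2.1.2 + 1) / 3 = d.2.1.2 := by omega
      have e2 : (3 * d.2.2.2 + 2) / 3 = d.2.2.2 := by omega
      dsimp only
      rw [e0, e1, e2]
      exact hτ d hd
    · exact eqc_nae τ _ c h
    · exact eqc_nae τ _ c h
    · exact eqc_nae τ _ c h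
  · rintro ⟨τ, hτ⟩
    refine ⟨fun x => τ (3 * x), ?_⟩
    intro d hd
    have hh := hτ ((d.1.1, 3 * d.1.2), (d.2.1.1, 3 * d.2.1.2 + 1), (d.2.2.1, 3 * d.2.2.2 + 2))
      ((col_mem ψ _).2 ⟨d, hd, Or.inl rfl⟩)
    have f1 := eqc_forces τ d.2.1.2 (fun c hc => hτ c ((col_mem ψ c).2
      ⟨d, hd, Or.inr (Or.inr (Or.inl hc))⟩))
    have f2 := eqc_forces τ d.2.2.2 (fun c hc => hτ c ((col_mem ψ c).2
      ⟨d, hd, Or.inr (Or.inr (Or.inr hc))⟩))
    dsimp only at hh ⊢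
    rw [f1.1, f2.2] at hh
    exact hh

end Pool.Agent.W65.SRR
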